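import Pool.Agent.Helper178.QrtIn
import Pool.Agent.Helper178.QrtCF
import Pool.Agent.Helper178.QrtOut

/-!
There is a context-free language `L` such that every quasi-rational language is the image of `L`
under a rational transduction, while some context-free language is not.
-/

namespace Pool.Agent.Results.MP_2d18ab_lc.NonGenerator

open Pool.Agent.Helper178.Qrt Symbol
open Pool.Agent.Helper178.Trans (Rat)

/-- A family of languages: for every finite alphabet `X`, a set of languages over `X`. -/
abbrev Family := ∀ (X : Type) [Finite X], Set (Language X)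

/-- Linear languages: generated by a context-free grammar in which every right-hand side contains
at most one nonterminal. -/
def IsLinear {X : Type} (L : Language X) : Prop :=
  ∃ g : ContextFreeGrammar X, (∀ r ∈ g.rules, (∃ x : List X, r.output = x.map terminal) ∨
    ∃ (x : List X) (B : g.NT) (y : List X),
      r.output = x.map terminal ++ nonterminal B :: y.map terminal) ∧ g.language = L

/-- The image of the language `L` under the substitution `x ↦ s x`. -/
def substitute {X Y : Type} (s : X → Language Y) (L : Language X) : Language Y :=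
  {w | ∃ u ∈ L, w ∈ (u.map s).prod}

/-- Families closed under substitution. -/
def IsSubstClosed (F : Family) : Prop :=
  ∀ (X Y : Type) [Finite X] [Finite Y] (s : X → Language Y), (∀ x, s x ∈ F Y) →
    ∀ L ∈ F X, substitute s L ∈ F Y

/-- The family of quasi-rational languages: the smallest family that contains all linear languages
and is closed under substitution. -/
def Qrt : Family := fun X _ =>
  {L | ∀ F : Family, (∀ (Y : Type) [Finite Y] (K : Language Y), IsLinear K → K ∈ F Y) →
    IsSubstClosed F → L ∈ F X}

/-- The image of the language `L` under the rational transduction `u ↦ g (h ⁻¹ (u) ∩ R)`, where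
`h` and `g` are (extended to) morphisms of free monoids and `R` is a regular language. -/
def transduce {C X Y : Type} (h : C → List X) (g : C → List Y) (R : Language C)
    (L : Language X) : Language Y :=
  {v | ∃ w ∈ R, w.flatMap h ∈ L ∧ v = w.flatMap g}

/-- The principal rational cone `T L`: the images of `L` under all rational transductions. -/
def T {X : Type} (L : Language X) : Family := fun Y _ =>
  {K | ∃ (C : Type) (_ : Finite C) (h : C → List X) (g : C → List Y) (R : Language C),
    R.IsRegular ∧ K = transduce h g R L}

/-- The family of the context-free languages. -/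
def Alg : Family := fun _ _ => {K | K.IsContextFree}

theorem mem_T_iff {Y : Type} [Finite Y] (K : Language Y) :
    K ∈ T LQ Y ↔ ∃ r : List Sg → List Y → Prop, Rat r ∧ ∀ v, v ∈ K ↔ ∃ w ∈ LQ, r w v := by
  constructor
  · rintro ⟨C, _, h, g, R, hR, rfl⟩
    refine ⟨_, Rat.nivat h g hR, fun v => ?_⟩
    constructor
    · rintro ⟨w, hw, h1, rfl⟩
      exact ⟨_, h1, w, hw, rfl, rfl⟩
    · rintro ⟨_, h1, w, hw, rfl, rfl⟩
      exact ⟨w, hw, h1, rfl⟩
  · rintro ⟨r, hr, hK⟩
    obtain ⟨C, hC, h, g, R, hR, hr⟩ := hr.exists_nivat
    refine ⟨C, hC, h, g, R, hR, ?_⟩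
    ext v
    rw [hK]
    constructor
    · rintro ⟨u, hu, huv⟩
      obtain ⟨w, hw, rfl, rfl⟩ := (hr _ _).mp huv
      exact ⟨w, hw, hu, rfl⟩
    · rintro ⟨w, hw, hu, rfl⟩
      exact ⟨_, hu, (hr _ _).mpr ⟨w, hw, rfl, rfl⟩⟩

/-- There is a context-free language `L` over a finite alphabet such that the principal rational
cone of `L` contains all quasi-rational languages but not all context-free languages. -/
theorem result : ∃ (X : Type) (_ : Finite X) (L : Language X), L.IsContextFree ∧
    (∀ (Y : Type) [Finite Y], Qrt Y ⊆ T L Y) ∧ ∃ (Y : Type) (_ : Finite Y), ¬ Alg Y ⊆ T L Y := by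
  refine ⟨Sg, inferInstance, LQ, LQ_contextFree, ?_, A4, inferInstance, ?_⟩
  · intro Y _ K hK
    rw [mem_T_iff]
    refine Phi_rat (hK (fun X _ => {L | Phi L}) ?_ ?_)
    · rintro X _ L ⟨g, hg, rfl⟩
      exact Phi_linear g hg
    · intro X Z _ _ s hs L hL
      exact Phi_sbs s L hL hs
  · intro h
    have h1 := h KT_contextFree
    rw [mem_T_iff] at h1
    exact KT_not h1

end Pool.Agent.Results.MP_2d18ab_lc.NonGenerator
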